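import Mathlib
import Pool.Agent.X21.Sp.S4

/-!
# Layers, with spin layers, at general points, and the number of occurrences of a zero
-/

set_option autoImplicit false
set_option linter.unusedSectionVars false

namespace Pool.Agent.X21.Li

open Pool.Agent.H302R2 Pool.Agent.H302R5 Pool.Agent.H541R3.ART Pool.Agent.W446.AS Pool.Agent.X21.Sy
  Pool.Agent.X21.Qd Pool.Agent.X21.Ce Pool.Agent.X21.Sp Pool.Agent.H302R10
  Pool.Agent.TH820 Pool.Agent.W295.Cl Pool.Agent.W295.Sp Pool.Agent.H417R3.HB Equiv Equiv.Perm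

/-- `N` is generated by the central involution of `Q` which is the central involution of a double
cover of the alternating or symmetric group of degree `n` contained in `Q`, and
`R < 8 ^ ⌊n / 8⌋`. -/
def SpinLay (R : ℕ) {Q : Type} [Group Q] (N : Subgroup Q) : Prop :=
  ∃ (n : ℕ) (H : Subgroup Q) (π : H →* Perm (Fin n)) (ζ : H), IsSpin π ζ ∧
    (∀ g : Q, g * ζ = ζ * g) ∧ R < 8 ^ (n / 8) ∧ N = Subgroup.zpowers (ζ : Q)

/-- `N` is a normal subgroup of `G` obtained from the trivial subgroup by finitely many steps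
`M ≤ N` where `N / M` satisfies `LayC (AltOr R)`, `Orb R` or `SpinLay R` in `G / M`. -/
inductive BuiltL (R : ℕ) {G : Type} [Group G] : Subgroup G → Prop
  | bot : BuiltL R ⊥
  | lay (M N : Subgroup G) [M.Normal] (hM : BuiltL R M) (hMN : M ≤ N)
      (h : LayC (fun S [Group S] => AltOr R S) (N.map (QuotientGroup.mk' M))) : BuiltL R N
  | orb (M N : Subgroup G) [M.Normal] (hM : BuiltL R M) (hMN : M ≤ N)
      (h : Orb R (N.map (QuotientGroup.mk' M))) : BuiltL R N
  | spin (M N : Subgroup G) [M.Normal] (hM : BuiltL R M) (hMN : M ≤ N)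
      (h : SpinLay R (N.map (QuotientGroup.mk' M))) : BuiltL R N

section

variable {Q : Type} [Group Q] [Finite Q]

lemma mem_zp {z : Q} (hz2 : z * z = 1) (g : Q) : g ∈ Subgroup.zpowers z ↔ g = 1 ∨ g = z := by
  constructor
  · rintro ⟨k, rfl⟩
    have hz2' : z ^ (2 : ℤ) = 1 := by rw [zpow_ofNat, pow_two, hz2]
    rcases Int.even_or_odd' k with ⟨m, hm | hm⟩
    · left
      change z ^ k = 1
      rw [hm, zpow_mul, hz2', one_zpow]
    · right
      change z ^ k = z
      rw [hm, zpow_add, zpow_mul, hz2', one_zpow, one_mul, zpow_one]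
  · rintro (rfl | rfl)
    · exact one_mem _
    · exact Subgroup.mem_zpowers _

lemma zp_normal {z : Q} (hz2 : z * z = 1) (hzc : ∀ g : Q, g * z = z * g) :
    (Subgroup.zpowers z).Normal := by
  constructor
  intro n hn g
  rcases (mem_zp hz2 n).mp hn with h | h
  · rw [h, mul_one, mul_inv_cancel]; exact one_mem _
  · rw [h, hzc, mul_inv_cancel_right]; exact Subgroup.mem_zpowers z

lemma SpinLay.normal {R : ℕ} {N : Subgroup Q} (hN : SpinLay R N) : N.Normal := by
  obtain ⟨n, H, π, ζ, hs, hzc, -, rfl⟩ := hN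
  exact zp_normal (congrArg Subtype.val hs.sq) hzc

/-- the central involution is in the kernel -/
lemma spin_ker {R : ℕ} {N : Subgroup Q} (hN : SpinLay R N) {θ : Q → ℂ} (hθ : IsHeilbronn θ)
    {s : ℕ} (hs : s ≤ R) (h1 : θ 1 = s) : ∀ y ∈ N, θ y = θ 1 := by
  classical
  obtain ⟨n, H, π, ζ, hsp, hzc, hR, rfl⟩ := hN
  obtain ⟨B, hzB, φ, hc, e1, e2, e3⟩ := spin_setup H π ζ hsp hzc
  have hz1 : (ζ : Q) ≠ 1 := fun h => hsp.ne (Subtype.ext h)
  have hz2 : (ζ : Q) * ζ = 1 := congrArg Subtype.val hsp.sq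
  obtain ⟨a, ha⟩ := hθ.mult B φ
  obtain ⟨r₀, hr₀⟩ := hθ.mult (Subgroup.zpowers (ζ : Q)) 1
  have h3 := key_sum hθ hz1 hz2 B hzB φ e1 e3
  rw [ha, hc] at h3
  have hcz : Nat.card (Subgroup.zpowers (ζ : Q)) = 2 := by
    rw [Nat.card_zpowers]
    exact orderOf_eq_prime (by rw [pow_two, hz2]) hz1
  have h2 : θ 1 + θ ζ = 2 * (r₀ : ℂ) := by
    have : Fintype (Subgroup.zpowers (ζ : Q)) := Fintype.ofFinite _
    rw [finsum_eq_sum_of_fintype, hcz] at hr₀
    have hne : (1 : Subgroup.zpowers (ζ : Q)) ≠ ⟨ζ, Subgroup.mem_zpowers _⟩ := by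
      intro h
      exact hz1 (congrArg Subtype.val h).symm
    have huniv : (Finset.univ : Finset (Subgroup.zpowers (ζ : Q)))
        = {1, ⟨ζ, Subgroup.mem_zpowers _⟩} := by
      ext ⟨g, hg⟩
      simp only [Finset.mem_univ, Finset.mem_insert, Finset.mem_singleton, true_iff]
      rcases (mem_zp hz2 g).mp hg with h | h
      · left; exact Subtype.ext h
      · right; exact Subtype.ext h
    rw [huniv, Finset.sum_pair hne] at hr₀
    simp only [MonoidHom.one_apply, inv_one, Units.val_one, mul_one, OneMemClass.coe_one] at hr₀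
    push_cast at hr₀
    linear_combination hr₀
  have h4 : (s : ℂ) = r₀ + a * 8 ^ (n / 8) := by
    push_cast at h3
    linear_combination (1 / 2 : ℂ) * h2 - (1 / 2 : ℂ) * h3 - h1
  have h5 : s = r₀ + a * 8 ^ (n / 8) := by exact_mod_cast h4
  have ha0 : a = 0 := by
    have h6 : a * 8 ^ (n / 8) < 1 * 8 ^ (n / 8) := by omega
    have := lt_of_mul_lt_mul_right h6 (Nat.zero_le _)
    omega
  have h7 : θ (ζ : Q) = θ 1 := by
    rw [ha0] at h3
    push_cast at h3
    linear_combination h3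
  intro y hy
  rcases (mem_zp hz2 y).mp hy with h | h
  · rw [h]
  · rw [h, h7]

lemma BuiltL.normal {R : ℕ} {N : Subgroup Q} (hN : BuiltL R N) : N.Normal := by
  cases hN with
  | bot => exact Subgroup.normal_bot
  | lay M _ _ hMN h => exact normal_of_map hMN h.1
  | orb M _ _ hMN h => exact normal_of_map hMN h.1
  | spin M _ _ hMN h => exact normal_of_map hMN h.normal

/-- **Invariance.** -/
theorem builtL_const {R : ℕ} {N : Subgroup Q} (hN : BuiltL R N) {θ : Q → ℂ}
    (hθ : IsHeilbronn θ) {s : ℕ} (hs : s ≤ R) (h1 : θ 1 = s) :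
    ∀ y ∈ N, ∀ x, θ (y * x) = θ x := by
  have step : ∀ (M N : Subgroup Q) [M.Normal] (hMN : M ≤ N) (hNn : N.Normal)
      (ih : ∀ y ∈ M, ∀ x, θ (y * x) = θ x)
      (hc : ∀ η : Q ⧸ M → ℂ, IsHeilbronn η → η 1 = s →
        ∀ y ∈ N.map (QuotientGroup.mk' M), η y = η 1),
      ∀ y ∈ N, ∀ x, θ (y * x) = θ x := by
    intro M N hMn hMN hNn ih hc
    have hinv : ∀ g : Q, ∀ n ∈ M, θ (g * n) = θ g := by
      intro g n hn
      have h2 : g * n = (g * n * g⁻¹) * g := by group
      rw [h2, ih _ (hMn.conj_mem n hn g)]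
    have hd := hθ.descend M hinv
    have hmk : ∀ g : Q, Pool.Agent.H302R2.descend M θ (QuotientGroup.mk' M g) = θ g :=
      fun g => descend_mk hinv g
    have h2 := hc _ hd (by
      have := hmk 1
      rw [map_one] at this
      rw [this, h1])
    refine const_of_kernel hθ N fun y hy => ?_
    have h3 := h2 (QuotientGroup.mk' M y) ⟨y, hy, rfl⟩
    have h4 := hmk 1
    rw [map_one] at h4
    rw [← hmk y, h3, h4]
  induction hN with
  | bot =>
    intro y hy x
    rw [Subgroup.mem_bot] at hy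
    rw [hy, one_mul]
  | lay M N hM hMN h ih =>
    exact step M N hMN (normal_of_map hMN h.1) ih
      (fun η hη h1 => layC_ker (h.mono (fun S _ _ hS => (AltOr.facO hS).rigid)) hη hs h1)
  | orb M N hM hMN h ih =>
    refine step M N hMN (normal_of_map hMN h.1) ih (fun η hη h1 y hy => ?_)
    have := orb_const h hη hs h1 y hy 1
    rwa [one_mul] at this
  | spin M N hM hMN h ih =>
    exact step M N hMN (normal_of_map hMN h.normal) ih
      (fun η hη h1 => spin_ker h hη hs h1)

end

/-- The number of times the zero `s₀` occurs in the union of the multisets of the zeros of the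
functions `L χ`, `χ` irreducible. -/
noncomputable def occ {G : Type} [Group G] {s₀ : ℂ} (A : ArtinData G s₀) : ℕ :=
  ∑ᶠ χ ∈ Irr G, (meromorphicOrderAt (A.L χ) s₀).untop₀.toNat

section

variable {G : Type} [Group G] [Finite G] {s₀ : ℂ}

lemma occ_eq (A : ArtinData G s₀) : occ A = ∑ χ ∈ irrF G, (A.ord χ).toNat := by
  unfold occ
  rw [finsum_mem_eq_finite_toFinset_sum _ (irr_finite (G := G))]
  rfl

/-- the kernel of a representation -/
lemma rep_one {d : ℕ} (ρ : Representation ℂ G (Fin d → ℂ)) (hρ : ρ.character ∈ Irr G) {c : G}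
    (hc : ρ.character c = ρ.character 1) : ρ c = 1 := by
  classical
  have hH := irr_heilbronn hρ
  have : Fintype (Subgroup.zpowers c) := Fintype.ofFinite _
  let σ : Representation ℂ (Subgroup.zpowers c) (Fin d → ℂ) := ρ.comp (Subgroup.zpowers c).subtype
  have hN : (Nat.card (Subgroup.zpowers c) : ℂ) ≠ 0 := by exact_mod_cast Nat.card_pos.ne'
  have hinv : Invertible (Nat.card (Subgroup.zpowers c) : ℂ) := invertibleOfNonzero hN
  have h1 := Representation.card_inv_mul_sum_char_eq_finrank σ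
  have h2 : ∀ x : Subgroup.zpowers c, σ.character x = ρ.character 1 := by
    rintro ⟨x, hx⟩
    obtain ⟨k, rfl⟩ := (mem_powers_iff_mem_zpowers (x := c)).mpr hx
    exact hH.pow_of_eq hc k
  rw [Finset.sum_congr rfl (fun x _ => h2 x), Finset.sum_const, Finset.card_univ,
    ← Nat.card_eq_fintype_card, nsmul_eq_mul, ← mul_assoc, inv_mul_cancel₀ hN, one_mul,
    ρ.char_one] at h1
  have h3 : Module.finrank ℂ (Fin d → ℂ) = Module.finrank ℂ σ.invariants := by exact_mod_cast h1
  have h4 : σ.invariants = ⊤ := Submodule.eq_top_of_finrank_eq h3.symm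
  refine LinearMap.ext fun v => ?_
  have hv : v ∈ σ.invariants := by rw [h4]; exact Submodule.mem_top
  exact hv ⟨c, Subgroup.mem_zpowers c⟩

/-- irreducible characters which are trivial on a normal subgroup with abelian quotient -/
lemma lin_of_abelian {N : Subgroup G} (hab : ∀ g h : G, g * h * g⁻¹ * h⁻¹ ∈ N) {χ : G → ℂ}
    (hχ : χ ∈ Irr G) (ht : ∀ n ∈ N, χ n = χ 1) :
    ∃ ψ : G →* ℂˣ, χ = fun g => ((ψ g : ℂˣ) : ℂ) := by
  classical
  have : Fintype G := Fintype.ofFinite G
  obtain ⟨d, ρ, hρ, rfl⟩ := exists_rep hχ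
  -- `ρ` is trivial on `N`
  have hN : ∀ n ∈ N, ρ n = 1 := fun n hn => rep_one ρ hχ (ht n hn)
  have hcomm : ∀ g h v, ρ g (ρ h v) = ρ h (ρ g v) := by
    intro g h v
    have h1 := hN _ (hab g h)
    have h2 : g * h = (g * h * g⁻¹ * h⁻¹) * (h * g) := by group
    have h3 : ρ (g * h) v = ρ (h * g) v := by
      rw [h2, map_mul ρ, h1]
      rfl
    rw [map_mul, map_mul] at h3
    exact h3
  have hn := hρ.1
  obtain ⟨v₀, hv₀⟩ := exists_ne (0 : Fin d → ℂ)
  have h1 : ∀ g : G, ∃ c : ℂ, ∀ v, ρ g v = c • v := fun g =>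
    hρ.scalar (ρ g) fun h v => hcomm g h v
  choose c hc using h1
  let f : G →* ℂ :=
    { toFun := c
      map_one' := by
        have h2 := hc 1 v₀
        rw [map_one, Module.End.one_apply] at h2
        have h3 : (1 - c 1) • v₀ = 0 := by rw [sub_smul, one_smul, ← h2, sub_self]
        rcases smul_eq_zero.mp h3 with h4 | h4
        · exact (sub_eq_zero.mp h4).symm
        · exact absurd h4 hv₀
      map_mul' := by
        intro a b
        have h2 := hc (a * b) v₀
        rw [map_mul, Module.End.mul_apply, hc b, map_smul, hc a, smul_smul] at h2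
        have h3 : (c b * c a - c (a * b)) • v₀ = 0 := by rw [sub_smul, h2, sub_self]
        rcases smul_eq_zero.mp h3 with h4 | h4
        · rw [mul_comm (c a)]; exact (sub_eq_zero.mp h4).symm
        · exact absurd h4 hv₀ }
  have hchar : ∀ g, ρ.character g = c g * d := by
    intro g
    have h2 : ρ g = c g • LinearMap.id := by
      refine LinearMap.ext fun v => ?_
      rw [hc g v]
      rfl
    change LinearMap.trace ℂ _ (ρ g) = _
    rw [h2, map_smul, LinearMap.trace_id, smul_eq_mul]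
    simp
  have hd : (d : ℂ) = 1 := by
    have h8 := pr_self hχ
    rw [pr_eq] at h8
    have h9 : ∀ g : G, ρ.character g * ρ.character g⁻¹ = (d : ℂ) * d := by
      intro g
      rw [hchar, hchar]
      have h10 : c g * c g⁻¹ = 1 := by
        have h11 : f g * f g⁻¹ = 1 := by rw [← map_mul, mul_inv_cancel, map_one]
        exact h11
      linear_combination (d : ℂ) * d * h10
    rw [Finset.sum_congr rfl (fun g _ => h9 g), Finset.sum_const, Finset.card_univ, nsmul_eq_mul,
      ← Nat.card_eq_fintype_card] at h8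
    have hc0 : (Nat.card G : ℂ) ≠ 0 := by exact_mod_cast Nat.card_pos.ne'
    have h10 : (d : ℂ) * d = 1 := by
      field_simp at h8
      linear_combination h8
    have h11 : d * d = 1 := by exact_mod_cast h10
    rw [Nat.eq_one_of_mul_eq_one_right h11, Nat.cast_one]
  refine ⟨f.toHomUnits, ?_⟩
  funext g
  rw [hchar, hd, mul_one]
  rfl

/-- layers with abelian quotient -/
theorem occ_abelian (A : ArtinData G s₀) {r R : ℕ}
    (hr : meromorphicOrderAt (A.Lin ⊥ 1) s₀ = (r : WithTop ℤ)) (hrR : r ≤ R) (N : Subgroup G)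
    (hN : BuiltL R N) (hab : ∀ g h : G, g * h * g⁻¹ * h⁻¹ ∈ N) :
    occ A = r ∧ ∀ χ ∈ Irr G, 0 ≤ meromorphicOrderAt (A.L χ) s₀ := by
  classical
  have : Fintype G := Fintype.ofFinite G
  have hθ := A.isHeilbronn
  have h1 := A.theta_one hr
  have hNn := hN.normal
  have hcos := builtL_const hN hθ hrR h1
  have key : ∀ χ ∈ Irr G, 0 ≤ A.ord χ ∧ (((A.ord χ).toNat : ℕ) : ℂ) = (A.ord χ : ℂ) * χ 1 := by
    intro χ hχ
    by_cases ht : ∀ n ∈ N, χ n = χ 1
    · obtain ⟨ψ, hψ⟩ := lin_of_abelian hab hχ ht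
      obtain ⟨k, hk⟩ := hθ.mult_hom (MonoidHom.id G) ψ
      have h2 : ∑ g : G, (theta A.ord : G → ℂ) g * χ g⁻¹ = ((k : ℤ) : ℂ) * Nat.card G := by
        have h3 : ∀ g : G, (theta A.ord : G → ℂ) g * χ g⁻¹
            = (theta A.ord : G → ℂ) (MonoidHom.id G g) * (((ψ g)⁻¹ : ℂˣ) : ℂ) := by
          intro g
          rw [hψ]
          simp only [map_inv]
          rfl
        rw [Finset.sum_congr rfl (fun g _ => h3 g)]
        rw [hk]
        push_cast
        rfl
      have h4 := A.order_eq hχ h2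
      rw [← A.coe_ord hχ] at h4
      have h5 : A.ord χ = k := WithTop.coe_injective h4
      refine ⟨by rw [h5]; positivity, ?_⟩
      have h6 : χ 1 = 1 := by rw [hψ]; simp
      rw [h5, h6]
      simp
    · push Not at ht
      obtain ⟨n, hn, hn1⟩ := ht
      have h3 := pair_zero hχ N hcos hn hn1
      have h4 := A.order_eq hχ (k := 0) (by rw [h3]; simp)
      rw [← A.coe_ord hχ] at h4
      have h5 : A.ord χ = 0 := by exact_mod_cast h4
      rw [h5]
      simp
  refine ⟨?_, fun χ hχ => ?_⟩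
  · have h2 : (occ A : ℂ) = r := by
      rw [occ_eq, ← h1, theta]
      push_cast
      exact Finset.sum_congr rfl fun χ hχ => (key χ (mem_irrF.mp hχ)).2
    exact_mod_cast h2
  · rw [← A.coe_ord hχ]
    exact_mod_cast (key χ hχ).1

/-- layers in general -/
theorem occ_general (A : ArtinData G s₀) {r R : ℕ}
    (hr : meromorphicOrderAt (A.Lin ⊥ 1) s₀ = (r : WithTop ℤ)) (hrR : r ≤ R) (N : Subgroup G)
    (hN : BuiltL R N) :
    (∀ χ ∈ Irr G, (∃ n ∈ N, χ n ≠ χ 1) → meromorphicOrderAt (A.L χ) s₀ = 0) ∧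
    occ A = ∑ᶠ χ ∈ {χ ∈ Irr G | ∀ n ∈ N, χ n = χ 1}, (meromorphicOrderAt (A.L χ) s₀).untop₀.toNat ∧
    ∀ U : Subgroup G,
      (∀ η ∈ Irr U, (∃ u : U, (u : G) ∈ N ∧ η u ≠ η 1) → ∀ F : ℂ → ℂ,
        IsRel A U η F → meromorphicOrderAt F s₀ = 0) ∧
      meromorphicOrderAt (A.Lin U 1) s₀ = meromorphicOrderAt (A.Lin (U ⊔ N) 1) s₀ := by
  classical
  have : Fintype G := Fintype.ofFinite G
  have hθ := A.isHeilbronn
  have h1 := A.theta_one hr
  have hNn := hN.normal
  have hcos := builtL_const hN hθ hrR h1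
  have hz : ∀ χ ∈ Irr G, (∃ n ∈ N, χ n ≠ χ 1) → meromorphicOrderAt (A.L χ) s₀ = 0 := by
    rintro χ hχ ⟨n, hn, hn1⟩
    have h3 := pair_zero hχ N hcos hn hn1
    have h4 := A.order_eq hχ (k := 0) (by rw [h3]; simp)
    exact_mod_cast h4
  refine ⟨hz, ?_, fun U => ⟨?_, ?_⟩⟩
  · unfold occ
    have hfin : (Irr G).Finite := irr_finite (G := G)
    have hfin2 : {χ ∈ Irr G | ∀ n ∈ N, χ n = χ 1}.Finite := hfin.subset (fun χ h => h.1)
    rw [finsum_mem_eq_finite_toFinset_sum _ hfin, finsum_mem_eq_finite_toFinset_sum _ hfin2]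
    symm
    apply Finset.sum_subset
    · intro χ h
      rw [Set.Finite.mem_toFinset] at h ⊢
      exact h.1
    · intro χ h1 h2
      rw [Set.Finite.mem_toFinset] at h1 h2
      have h3 : ∃ n ∈ N, χ n ≠ χ 1 := by
        by_contra hcon
        push Not at hcon
        exact h2 ⟨h1, hcon⟩
      rw [hz χ h1 h3]
      rfl
  · have : Fintype U := Fintype.ofFinite U
    rintro η hη ⟨u, hu, hu1⟩ F hF
    obtain ⟨k, hk, hk2⟩ := Pool.Agent.X21.Ce.exists_order A U hη
    have h5 := pair_zero (θ := fun x : U => (theta A.ord : G → ℂ) x) hη (N.subgroupOf U)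
      (fun n hn x => by
        rw [Subgroup.mem_subgroupOf] at hn
        exact hcos _ hn _) (x := u) (by
          rw [Subgroup.mem_subgroupOf]; exact hu) hu1
    have h6 : (k : ℂ) * Nat.card U = 0 := by
      rw [← hk]; exact h5
    have hU : (Nat.card U : ℂ) ≠ 0 := by exact_mod_cast Nat.card_pos.ne'
    have h7 : k = 0 := by exact_mod_cast (mul_eq_zero.mp h6).resolve_right hU
    rw [hk2 F hF, h7]
    rfl
  · have hNr : meromorphicOrderAt (A.Lin N 1) s₀ = (r : WithTop ℤ) := by
      obtain ⟨a, ha⟩ := hθ.mult N 1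
      rw [order_of_multQ A N 1 ha]
      have : Fintype N := Fintype.ofFinite N
      have h6 : ∀ x : N, (theta A.ord : G → ℂ) x * ((((1 : N →* ℂˣ) x)⁻¹ : ℂˣ) : ℂ) = r := by
        intro x
        have h7 := hcos x x.2 1
        rw [mul_one, h1] at h7
        rw [h7]
        simp
      rw [finsum_congr h6, finsum_eq_sum_of_fintype, Finset.sum_const, Finset.card_univ,
        nsmul_eq_mul, ← Nat.card_eq_fintype_card, mul_comm] at ha
      have hN0 : (Nat.card N : ℂ) ≠ 0 := by exact_mod_cast Nat.card_pos.ne'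
      have h8 := mul_right_cancel₀ hN0 ha
      have h9 : r = a := by exact_mod_cast h8
      rw [h9]
    exact ded_sup A hr N hNr U 1 (fun _ _ => rfl)

end

end Pool.Agent.X21.Li
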