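import Mathlib
import Pool.Agent.X21.Li.O1

/-!
# Alternating and symmetric groups and their double covers
-/

set_option autoImplicit false
set_option linter.unusedSectionVars false

namespace Pool.Agent.X21.Li

open Pool.Agent.H302R2 Pool.Agent.H302R5 Pool.Agent.H541R3.ART Pool.Agent.W446.AS Pool.Agent.X21.Sy
  Pool.Agent.X21.Qd Pool.Agent.X21.Ce Pool.Agent.X21.Sp Pool.Agent.H302R10
  Pool.Agent.TH820 Pool.Agent.W295.Cl Pool.Agent.W295.Sp Pool.Agent.H417R3.HB Equiv Equiv.Perm

section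

variable {G : Type} [Group G] [Finite G] {n : ℕ}

/-- transport of double covers -/
lemma spin_congr {Γ Γ' : Type} [Group Γ] [Group Γ'] (e : Γ' ≃* Γ) {π : Γ →* Perm (Fin n)} {z : Γ}
    (hs : IsSpin π z) : IsSpin (π.comp e.toMonoidHom) (e.symm z) := by
  refine ⟨fun g => ?_, fun h => ?_, ?_, fun g => ?_, fun σ hσ => ?_, fun g hg => ?_⟩
  · apply e.injective
    rw [map_mul, map_mul, e.apply_symm_apply, hs.central]
  · apply hs.ne
    rw [← e.apply_symm_apply z, h, map_one]
  · rw [← map_mul, hs.sq, map_one]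
  · change π (e g) = 1 ↔ _
    rw [hs.ker]
    constructor
    · rintro (h | h)
      · left
        exact e.injective (h.trans (map_one e).symm)
      · right
        rw [← h, e.symm_apply_apply]
    · rintro (h | h)
      · left; rw [h, map_one]
      · right; rw [h, e.apply_symm_apply]
  · obtain ⟨g, hg⟩ := hs.surj σ hσ
    exact ⟨e.symm g, by change π (e (e.symm g)) = σ; rw [e.apply_symm_apply, hg]⟩
  · have h1 := hs.dt (e g) hg
    rw [← map_mul] at h1
    rw [← h1, e.symm_apply_apply]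

/-- the preimage of the alternating group -/
def evn (π : G →* Perm (Fin n)) : Subgroup G := (alternatingGroup (Fin n)).comap π

lemma evn_comm (π : G →* Perm (Fin n)) (g h : G) : g * h * g⁻¹ * h⁻¹ ∈ evn π := by
  change π (g * h * g⁻¹ * h⁻¹) ∈ alternatingGroup (Fin n)
  rw [mem_alternatingGroup]
  simp only [map_mul, map_inv]
  rw [mul_assoc (Perm.sign (π g)), mul_comm (Perm.sign (π h)), ← mul_assoc, mul_inv_cancel,
    one_mul, mul_inv_cancel]

lemma evn_normal (π : G →* Perm (Fin n)) : (evn π).Normal := by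
  unfold evn; infer_instance

lemma evn_lay {R : ℕ} (π : G →* Perm (Fin n)) (hsurj : ∀ σ : Perm (Fin n), Perm.sign σ = 1 →
    ∃ g : G, π g = σ) (hn : 14 ≤ n) (h1 : R + 1 < n) (h2 : n.Prime → R + 2 < n) :
    LayC (fun S [Group S] => AltOr R S) ((evn π).map (QuotientGroup.mk' π.ker)) := by
  have hle : alternatingGroup (Fin n) ≤ π.range := by
    intro σ hσ
    obtain ⟨g, hg⟩ := hsurj σ (mem_alternatingGroup.mp hσ)
    exact ⟨g, hg⟩
  let e := QuotientGroup.quotientKerEquivRange π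
  let h : alternatingGroup (Fin n) →* G ⧸ π.ker :=
    e.symm.toMonoidHom.comp (Subgroup.inclusion hle)
  have hn' := evn_normal π
  refine ⟨hn'.map _ (QuotientGroup.mk'_surjective _), 1,
    fun _ => (evn π).map (QuotientGroup.mk' π.ker), ?_, ?_, ?_⟩
  · intro i j hij
    exact absurd (Subsingleton.elim i j) hij
  · rw [ciSup_const]
  · intro i
    refine ⟨alternatingGroup (Fin n), inferInstance, inferInstance, h,
      Or.inl ⟨n, hn, h1, h2, ⟨MulEquiv.refl _⟩⟩, ?_⟩
    ext q
    constructor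
    · rintro ⟨σ, rfl⟩
      obtain ⟨g, hg⟩ := hsurj σ (mem_alternatingGroup.mp σ.2)
      refine ⟨g, ?_, ?_⟩
      · change π g ∈ alternatingGroup (Fin n)
        rw [hg]; exact σ.2
      · change (QuotientGroup.mk g : G ⧸ π.ker) = e.symm (Subgroup.inclusion hle σ)
        apply e.injective
        rw [e.apply_symm_apply]
        apply Subtype.ext
        exact hg
    · rintro ⟨g, hg, rfl⟩
      refine ⟨⟨π g, hg⟩, ?_⟩
      change e.symm (Subgroup.inclusion hle ⟨π g, hg⟩) = (QuotientGroup.mk g : G ⧸ π.ker)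
      apply e.injective
      rw [e.apply_symm_apply]
      apply Subtype.ext
      rfl

lemma built_inj {R : ℕ} (π : G →* Perm (Fin n)) (hinj : Function.Injective π)
    (hsurj : ∀ σ : Perm (Fin n), Perm.sign σ = 1 → ∃ g : G, π g = σ) (hn : 14 ≤ n)
    (h1 : R + 1 < n) (h2 : n.Prime → R + 2 < n) : BuiltL R (evn π) := by
  have hk : BuiltL R π.ker := by
    rw [(MonoidHom.ker_eq_bot_iff π).mpr hinj]
    exact BuiltL.bot
  refine BuiltL.lay π.ker (evn π) hk ?_ (evn_lay π hsurj hn h1 h2)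
  intro g hg
  rw [MonoidHom.mem_ker] at hg
  change π g ∈ alternatingGroup (Fin n)
  rw [hg]; exact one_mem _

lemma built_spin {R : ℕ} (π : G →* Perm (Fin n)) {z : G} (hs : IsSpin π z) (hn : 16 ≤ n)
    (h1 : R + 1 < n) (h2 : n.Prime → R + 2 < n) : BuiltL R (evn π) := by
  have hR : R < 8 ^ (n / 8) := by
    have h3 : ∀ k : ℕ, 2 ≤ k → 8 * k + 8 < 8 ^ k := by
      intro k hk
      induction k, hk using Nat.le_induction with
      | base => norm_num
      | succ k hk ih =>
        rw [pow_succ]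
        omega
    have h4 := h3 (n / 8) (by omega)
    omega
  have hk : BuiltL R π.ker := by
    refine BuiltL.spin ⊥ π.ker BuiltL.bot bot_le ?_
    let e : (⊤ : Subgroup (G ⧸ (⊥ : Subgroup G))) ≃* G :=
      Subgroup.topEquiv.trans QuotientGroup.quotientBot
    refine ⟨n, ⊤, π.comp e.toMonoidHom, e.symm z, spin_congr e hs, ?_, hR, ?_⟩
    · intro g
      have h3 := (spin_congr e hs).central ⟨g, Subgroup.mem_top g⟩
      exact congrArg Subtype.val h3
    · have hez : ((e.symm z : (⊤ : Subgroup (G ⧸ (⊥ : Subgroup G)))) : G ⧸ (⊥ : Subgroup G))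
          = QuotientGroup.mk' ⊥ z := by
        have h3 : e ⟨QuotientGroup.mk' ⊥ z, Subgroup.mem_top _⟩ = z := rfl
        have h4 : e.symm z = ⟨QuotientGroup.mk' ⊥ z, Subgroup.mem_top _⟩ := by
          apply e.injective
          rw [e.apply_symm_apply]
          exact h3.symm
        rw [h4]
      rw [hez]
      ext q
      rw [mem_zp (by rw [← map_mul, hs.sq, map_one])]
      constructor
      · rintro ⟨g, hg, rfl⟩
        rcases (hs.ker g).mp hg with h | h
        · left; rw [h, map_one]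
        · right; rw [h]
      · rintro (rfl | rfl)
        · exact one_mem _
        · exact ⟨z, (hs.ker z).mpr (Or.inr rfl), rfl⟩
  refine BuiltL.lay π.ker (evn π) hk ?_ (evn_lay π hs.surj (by omega) h1 h2)
  intro g hg
  rw [MonoidHom.mem_ker] at hg
  change π g ∈ alternatingGroup (Fin n)
  rw [hg]; exact one_mem _

/-- alternating and symmetric groups and their double covers -/
theorem occ_cover {s₀ : ℂ} (A : ArtinData G s₀) (π : G →* Perm (Fin n))
    (hπ : (14 ≤ n ∧ Function.Injective π ∧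
        ∀ σ : Perm (Fin n), Perm.sign σ = 1 → ∃ g : G, π g = σ) ∨
      (16 ≤ n ∧ ∃ z : G, IsSpin π z)) {r : ℕ}
    (hr : meromorphicOrderAt (A.Lin ⊥ 1) s₀ = (r : WithTop ℤ)) (h1 : r + 1 < n)
    (h2 : n.Prime → r + 2 < n) :
    occ A = r ∧ (∀ χ ∈ Irr G, 0 ≤ meromorphicOrderAt (A.L χ) s₀) ∧
    ∀ χ ∈ Irr G, (∃ g : G, Perm.sign (π g) = 1 ∧ χ g ≠ χ 1) →
      meromorphicOrderAt (A.L χ) s₀ = 0 := by
  have hB : BuiltL r (evn π) := by
    rcases hπ with ⟨hn, hinj, hsurj⟩ | ⟨hn, z, hs⟩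
    · exact built_inj π hinj hsurj hn h1 h2
    · exact built_spin π hs hn h1 h2
  obtain ⟨e1, e2⟩ := occ_abelian A hr le_rfl (evn π) hB (evn_comm π)
  obtain ⟨e3, -, -⟩ := occ_general A hr le_rfl (evn π) hB
  refine ⟨e1, e2, ?_⟩
  rintro χ hχ ⟨g, hg, hg1⟩
  exact e3 χ hχ ⟨g, by change π g ∈ alternatingGroup (Fin n); rw [mem_alternatingGroup, hg], hg1⟩

/-- characters of degree one -/
lemma comm_of_deg_one {χ : G → ℂ} (hχ : χ ∈ Irr G) (h1 : χ 1 = 1) (g h : G) :
    χ (g * h * g⁻¹ * h⁻¹) = χ 1 := by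
  obtain ⟨d, ρ, hρ, rfl⟩ := exists_rep hχ
  have hd : d = 1 := by
    rw [ρ.char_one] at h1
    simpa using h1
  subst hd
  have hscal : ∀ x : G, ∃ c : ℂ, ∀ v, ρ x v = c • v := by
    intro x
    refine ⟨ρ x (fun _ => 1) 0, fun v => ?_⟩
    have hv : v = v 0 • (fun _ : Fin 1 => (1 : ℂ)) := by
      funext i
      rw [Subsingleton.elim i 0]
      simp
    funext i
    rw [Subsingleton.elim i 0]
    conv_lhs => rw [hv, map_smul]
    simp only [Pi.smul_apply, smul_eq_mul]
    ring
  have hc : ρ (g * h) = ρ (h * g) := by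
    obtain ⟨a, ha⟩ := hscal g
    obtain ⟨b, hb⟩ := hscal h
    refine LinearMap.ext fun v => ?_
    rw [map_mul, map_mul, Module.End.mul_apply, Module.End.mul_apply, hb v, map_smul, ha v,
      map_smul, hb v]
    exact smul_comm _ _ _
  have h2 : ρ (g * h * g⁻¹ * h⁻¹) = ρ 1 := by
    have h3 : g * h * g⁻¹ * h⁻¹ = (g * h) * (h * g)⁻¹ := by group
    rw [h3, map_mul, hc, ← map_mul, mul_inv_cancel]
  change LinearMap.trace ℂ _ (ρ (g * h * g⁻¹ * h⁻¹)) = LinearMap.trace ℂ _ (ρ 1)
  rw [h2]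

/-- fewer occurrences -/
lemma occ_lt {s₀ : ℂ} (A : ArtinData G s₀) {r : ℕ}
    (hr : meromorphicOrderAt (A.Lin ⊥ 1) s₀ = (r : WithTop ℤ))
    (hpos : ∀ χ ∈ Irr G, 0 ≤ A.ord χ) {g h : G}
    (hne : (theta A.ord : G → ℂ) (g * h * g⁻¹ * h⁻¹) ≠ (theta A.ord : G → ℂ) 1) : occ A < r := by
  classical
  obtain ⟨χ₀, hχ₀, h1, h2⟩ := exists_ne_order A hne
  have hdeg : ∀ χ : G → ℂ, ∃ d : ℕ, χ ∈ Irr G → 0 < d ∧ χ 1 = d := by
    intro χ
    by_cases hχ : χ ∈ Irr G
    · obtain ⟨d, hd, hd1⟩ := irr_deg_pos hχ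
      exact ⟨d, fun _ => ⟨hd, hd1⟩⟩
    · exact ⟨0, fun h => absurd h hχ⟩
  choose d hd using hdeg
  have hd2 : 2 ≤ d χ₀ := by
    obtain ⟨h3, h4⟩ := hd χ₀ hχ₀
    by_contra hcon
    have h5 : d χ₀ = 1 := by omega
    rw [h5] at h4
    exact h1 (comm_of_deg_one hχ₀ (by rw [h4]; simp) g h)
  have hord : 0 < (A.ord χ₀).toNat := by
    have h3 := hpos χ₀ hχ₀
    have h4 : A.ord χ₀ ≠ 0 := by
      intro h5
      apply h2
      rw [← A.coe_ord hχ₀, h5]
      rfl
    omega
  have hsum : (r : ℕ) = ∑ χ ∈ irrF G, (A.ord χ).toNat * d χ := by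
    have h3 := A.theta_one hr
    have h4 : (r : ℂ) = ((∑ χ ∈ irrF G, (A.ord χ).toNat * d χ : ℕ) : ℂ) := by
      rw [← h3, theta]
      push_cast
      refine Finset.sum_congr rfl fun χ hχ => ?_
      have h5 := hpos χ (mem_irrF.mp hχ)
      rw [(hd χ (mem_irrF.mp hχ)).2]
      congr 1
      have h6 : ((A.ord χ).toNat : ℤ) = A.ord χ := Int.toNat_of_nonneg h5
      exact_mod_cast h6.symm
    exact_mod_cast h4
  rw [occ_eq, hsum]
  refine Finset.sum_lt_sum (fun χ hχ => ?_) ⟨χ₀, mem_irrF.mpr hχ₀, ?_⟩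
  · exact Nat.le_mul_of_pos_right _ (hd χ (mem_irrF.mp hχ)).1
  · nlinarith

end

/-- multiplicities of irreducible characters -/
lemma irr_mult {G : Type} [Group G] [Fintype G] {V : Type} [AddCommGroup V] [Module ℂ V]
    [FiniteDimensional ℂ V] (ρ : Representation ℂ G V) {χ : G → ℂ} (hχ : χ ∈ Irr G) :
    ∃ m : ℕ, ∑ g : G, ρ.character g * χ g⁻¹ = (m : ℂ) * (Nat.card G : ℂ) := by
  classical
  obtain ⟨n', τ, hτ, rfl⟩ := hχ
  have hH : (Nat.card G : ℂ) ≠ 0 := by exact_mod_cast Nat.card_pos.ne'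
  have : Invertible (Nat.card G : ℂ) := invertibleOfNonzero hH
  have h := Representation.card_inv_mul_sum_char_mul_char_eq_finrank τ ρ
  refine ⟨Module.finrank ℂ (Representation.IntertwiningMap τ ρ), ?_⟩
  rw [← h]
  field_simp
  
lemma alt_not_comm {n : ℕ} (hn : 4 ≤ n) :
    ∃ a b : alternatingGroup (Fin n), a * b * a⁻¹ * b⁻¹ ≠ 1 := by
  by_contra hcon
  push Not at hcon
  have h4 : 4 ≤ Nat.card (Fin n) := by rw [Nat.card_eq_fintype_card, Fintype.card_fin]; exact hn
  have : Nontrivial (alternatingGroup (Fin n)) :=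
    alternatingGroup.nontrivial_of_three_le_card (by omega)
  obtain ⟨g, hg⟩ := exists_ne (1 : alternatingGroup (Fin n))
  have h5 := alternatingGroup.center_eq_bot h4
  apply hg
  rw [← Subgroup.mem_bot, ← h5, Subgroup.mem_center_iff]
  intro x
  have h6 := hcon x g
  rw [mul_inv_eq_one, mul_inv_eq_iff_eq_mul] at h6
  exact h6

/-- sharpness -/
theorem occ_sharp {n : ℕ} (hn : 4 ≤ n) (s₀ : ℂ) : ∃ A : ArtinData (alternatingGroup (Fin n)) s₀,
      meromorphicOrderAt (A.Lin ⊥ 1) s₀ = ((n - 1 : ℕ) : WithTop ℤ) ∧ occ A < n - 1 ∧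
      (∀ χ ∈ Irr (alternatingGroup (Fin n)), 0 ≤ meromorphicOrderAt (A.L χ) s₀) ∧
      ∃ χ ∈ Irr (alternatingGroup (Fin n)), (∃ g, χ g ≠ χ 1) ∧
        meromorphicOrderAt (A.L χ) s₀ ≠ 0 := by
  classical
  have h3 : 4 ≤ Fintype.card (Fin n) := by rw [Fintype.card_fin]; exact hn
  have hθ : IsHeilbronn (fun g : Perm (Fin n) => (fx g : ℂ) - 1) := by
    refine ⟨fun g h => by rw [fx_conj], fun H l => ?_⟩
    have : Fintype H := Fintype.ofFinite H
    rw [finsum_eq_sum_of_fintype]
    obtain ⟨m, hm⟩ := fx_mult H l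
    simp only [sub_mul, Finset.sum_sub_distrib, one_mul]
    rw [hm]
    by_cases hl : l = 1
    · subst hl
      have hsum : ∑ h : H, ((((1 : H →* ℂˣ) h)⁻¹ : ℂˣ) : ℂ) = (Nat.card H : ℂ) := by
        simp [Nat.card_eq_fintype_card]
      have hm1 : m ≠ 0 := by
        intro h0
        rw [h0] at hm
        have h7 : ∑ h : H, fx (h : Perm (Fin n)) = 0 := by
          have : ((∑ h : H, fx (h : Perm (Fin n)) : ℕ) : ℂ) = 0 := by
            push_cast
            simpa using hm
          exact_mod_cast this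
        have h8 := (Finset.sum_eq_zero_iff.mp h7) 1 (Finset.mem_univ _)
        rw [Subgroup.coe_one, fx_one] at h8
        omega
      refine ⟨m - 1, ?_⟩
      rw [hsum]
      push_cast [Nat.cast_sub (show 1 ≤ m by omega)]
      ring
    · rw [sum_inv_hom hl]
      exact ⟨m, by ring⟩
  have : Nontrivial (alternatingGroup (Fin n)) := by
    exact alternatingGroup.nontrivial_of_three_le_card (by
      rw [Nat.card_eq_fintype_card]; omega)
  obtain ⟨g, hg⟩ := exists_ne (1 : alternatingGroup (Fin n))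
  have hV := (fx_virt (α := Fin n)).comp (alternatingGroup (Fin n)).subtype
  have hH := hθ.comp (alternatingGroup (Fin n)).subtype
  obtain ⟨B, hB1, hB2⟩ := artin_of_virt hH hV s₀
  have hth : (theta B.ord : alternatingGroup (Fin n) → ℂ)
      = fun g => (fx ((alternatingGroup (Fin n)).subtype g) : ℂ) - 1 := by
    funext x
    have h9 := hV.expand x
    rw [theta]
    refine Eq.trans ?_ h9.symm
    refine Finset.sum_congr rfl fun χ hχ => ?_
    obtain ⟨k, hk⟩ := hV.pr_int (mem_irrF.mp hχ)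
    have h3 := hB1 χ (mem_irrF.mp hχ) k hk
    rw [← B.coe_ord (mem_irrF.mp hχ)] at h3
    have h4 : B.ord χ = k := WithTop.coe_injective h3
    rw [hk, h4]
  obtain ⟨χ, hχ, hχ1, hχ2⟩ := exists_ne_order B (g := g) (by
    rw [hth]
    simp only [map_one, fx_one]
    intro h
    have h1 : (fx (g : Perm (Fin n)) : ℂ) = (Fintype.card (Fin n) : ℂ) := by
      change ((fx (g : Perm (Fin n)) : ℂ) - 1 = _) at h
      linear_combination h
    have h2 : fx (g : Perm (Fin n)) = Fintype.card (Fin n) := by exact_mod_cast h1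
    apply hg
    rw [fx, Finset.card_eq_iff_eq_univ] at h2
    ext x
    have := Finset.mem_univ x
    rw [← h2, Finset.mem_filter] at this
    simpa using congrArg Fin.val this.2)
  have hr : meromorphicOrderAt (B.Lin ⊥ 1) s₀ = ((n - 1 : ℕ) : WithTop ℤ) := by
    refine hB2 (n - 1) ?_
    rw [map_one, fx_one, Fintype.card_fin]
    push_cast [Nat.cast_sub (show 1 ≤ n by omega)]
    ring
  have hpos : ∀ χ ∈ Irr (alternatingGroup (Fin n)), 0 ≤ B.ord χ := by
    intro χ hχ
    obtain ⟨k, hk⟩ := hV.pr_int hχ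
    have h3 := hB1 χ hχ k hk
    rw [← B.coe_ord hχ] at h3
    have h4 : B.ord χ = k := WithTop.coe_injective h3
    rw [h4]
    have hG : (Nat.card (alternatingGroup (Fin n)) : ℂ) ≠ 0 := by
      exact_mod_cast Nat.card_pos.ne'
    let σ : Representation ℂ (alternatingGroup (Fin n)) (Fin n → ℂ) :=
      (permRep (Fin n)).comp (alternatingGroup (Fin n)).subtype
    obtain ⟨m, hm⟩ := irr_mult σ hχ
    rw [pr_eq] at hk
    have h5 : ∀ x : alternatingGroup (Fin n), σ.character x
          = (fx (x : Perm (Fin n)) : ℂ) := fun x => permRep_char _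
    simp only [h5] at hm
    simp only [Subgroup.coe_subtype, sub_mul, one_mul, Finset.sum_sub_distrib] at hk
    rw [hm] at hk
    by_cases h7 : χ = 1
    · obtain ⟨a, ha⟩ := hH.mult_hom (MonoidHom.id (alternatingGroup (Fin n))) 1
      have h8 : (a : ℂ) = k := by
        rw [← hk, h7]
        rw [h7] at hm
        simp only [MonoidHom.id_apply, MonoidHom.one_apply, inv_one, Units.val_one, mul_one,
          Subgroup.coe_subtype, Finset.sum_sub_distrib] at ha
        simp only [Pi.one_apply, mul_one] at hm ⊢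
        rw [hm] at ha
        field_simp
        linear_combination -ha
      have h9 : (a : ℤ) = k := by exact_mod_cast h8
      omega
    · rw [sum_inv_irr hχ h7, sub_zero] at hk
      have h8 : (m : ℂ) = k := by
        rw [← hk]
        field_simp
      have h9 : (m : ℤ) = k := by exact_mod_cast h8
      omega
  have hocc : occ B < n - 1 := by
    -- a commutator which is not the identity
    obtain ⟨a, b, hab⟩ := alt_not_comm hn
    refine occ_lt B hr hpos (g := a) (h := b) ?_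
    rw [hth]
    simp only [map_one, fx_one]
    intro h
    have h1 : (fx ((a * b * a⁻¹ * b⁻¹ : alternatingGroup (Fin n)) : Perm (Fin n)) : ℂ)
        = (Fintype.card (Fin n) : ℂ) := by
      change ((fx ((a * b * a⁻¹ * b⁻¹ : alternatingGroup (Fin n)) : Perm (Fin n)) : ℂ) - 1 = _) at h
      linear_combination h
    have h2 : fx ((a * b * a⁻¹ * b⁻¹ : alternatingGroup (Fin n)) : Perm (Fin n))
        = Fintype.card (Fin n) := by exact_mod_cast h1
    apply hab
    rw [fx, Finset.card_eq_iff_eq_univ] at h2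
    ext x
    have := Finset.mem_univ x
    rw [← h2, Finset.mem_filter] at this
    exact congrArg Fin.val this.2
  refine ⟨B, hr, hocc, fun χ hχ => ?_, χ, hχ, ⟨g, hχ1⟩, hχ2⟩
  rw [← B.coe_ord hχ]
  exact_mod_cast hpos χ hχ

end Pool.Agent.X21.Li
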